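import Mathlib

/-! The path space, the Wiener measure, and its shift. -/

namespace Pool.Agent.R967.FB

open MeasureTheory ProbabilityTheory Filter Topology Set
open scoped ENNReal NNReal

/-- The Borel sigma-algebra of locally uniform convergence on the path space. -/
instance pathMeasurableSpace : MeasurableSpace C(ℝ≥0, ℝ) := borel _

instance pathBorelSpace : BorelSpace C(ℝ≥0, ℝ) := ⟨rfl⟩

/-- all evaluations at once -/
def ev (w : C(ℝ≥0, ℝ)) (t : ℝ≥0) : ℝ := w t

lemma measurable_eval (t : ℝ≥0) : Measurable (fun w : C(ℝ≥0, ℝ) => w t) :=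
  (continuous_eval_const t).measurable

lemma measurable_ev : Measurable ev := measurable_pi_lambda _ measurable_eval

lemma mapsTo_eq {K : Set ℝ≥0} (hK : IsCompact K) {U : Set ℝ} (hU : IsOpen U) :
    ∃ c : Set ℝ≥0, c.Countable ∧ ∃ F : ℕ → Set ℝ, (∀ n, IsClosed (F n)) ∧
    {w : C(ℝ≥0, ℝ) | MapsTo w K U} = ⋃ n, ⋂ t ∈ c, {w : C(ℝ≥0, ℝ) | w t ∈ F n} := by
  obtain ⟨c, hcK, hc, hKc⟩ :=
    (TopologicalSpace.IsSeparable.of_separableSpace K).exists_countable_dense_subset
  refine ⟨c, hc, fun n => {x | ((n : ℝ≥0∞) + 1)⁻¹ ≤ Metric.infEDist x Uᶜ}, fun n => ?_, ?_⟩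
  · exact isClosed_le continuous_const Metric.continuous_infEDist
  · ext w
    simp only [mem_ofPred_eq, mem_iUnion, mem_iInter]
    constructor
    · intro h
      have hc' : IsCompact (w '' K) := hK.image w.continuous
      have hsub : w '' K ⊆ ⋃ n : ℕ, {x | ((n : ℝ≥0∞) + 1)⁻¹ < Metric.infEDist x Uᶜ} := by
        rintro x ⟨t, ht, rfl⟩
        have hx : w t ∈ U := h ht
        have hpos : 0 < Metric.infEDist (w t) Uᶜ := by
          rw [pos_iff_ne_zero]
          intro h0
          have := Metric.mem_closure_iff_infEDist_zero.2 h0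
          rw [hU.isClosed_compl.closure_eq] at this
          exact this hx
        obtain ⟨n, hn⟩ := ENNReal.exists_inv_nat_lt hpos.ne'
        refine mem_iUnion.2 ⟨n, lt_of_le_of_lt ?_ hn⟩
        exact ENNReal.inv_le_inv.2 le_self_add
      obtain ⟨n, hn⟩ := hc'.elim_directed_cover
        (fun n : ℕ => {x | ((n : ℝ≥0∞) + 1)⁻¹ < Metric.infEDist x Uᶜ})
        (fun n => isOpen_lt continuous_const Metric.continuous_infEDist) hsub
        (by
          apply Monotone.directed_le
          intro a b hab x hx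
          simp only [mem_ofPred_eq] at hx ⊢
          refine lt_of_le_of_lt ?_ hx
          apply ENNReal.inv_le_inv.2
          gcongr)
      refine ⟨n, fun t ht => ?_⟩
      exact (hn (mem_image_of_mem _ (hcK ht))).le
    · rintro ⟨n, hn⟩ t ht
      have hcl : IsClosed {s : ℝ≥0 | ((n : ℝ≥0∞) + 1)⁻¹ ≤ Metric.infEDist (w s) Uᶜ} :=
        isClosed_le continuous_const (Metric.continuous_infEDist.comp w.continuous)
      have h1 : closure c ⊆ {s : ℝ≥0 | ((n : ℝ≥0∞) + 1)⁻¹ ≤ Metric.infEDist (w s) Uᶜ} :=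
        closure_minimal (fun s hs => hn s hs) hcl
      have h2 : ((n : ℝ≥0∞) + 1)⁻¹ ≤ Metric.infEDist (w t) Uᶜ := h1 (hKc ht)
      by_contra hne
      have h3 : Metric.infEDist (w t) Uᶜ = 0 := Metric.infEDist_zero_of_mem hne
      rw [h3] at h2
      have h4 : ((n : ℝ≥0∞) + 1)⁻¹ = 0 := le_antisymm h2 zero_le
      rw [ENNReal.inv_eq_zero] at h4
      exact absurd h4 (by finiteness)

theorem measurableSpace_eq_comap :
    pathMeasurableSpace = MeasurableSpace.comap ev MeasurableSpace.pi := by
  apply le_antisymm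
  · have h1 : pathMeasurableSpace = MeasurableSpace.generateFrom
      (image2 (fun (K : Set ℝ≥0) (U : Set ℝ) => {f : C(ℝ≥0, ℝ) | MapsTo f K U})
        {K | IsCompact K} {U | IsOpen U}) :=
      borel_eq_generateFrom_of_subbasis ContinuousMap.compactOpen_eq
    rw [h1]
    apply MeasurableSpace.generateFrom_le
    rintro _ ⟨K, hK, U, hU, rfl⟩
    obtain ⟨c, hc, F, hF, he⟩ := mapsTo_eq hK hU
    simp only
    rw [he]
    have hm : ∀ t, Measurable[MeasurableSpace.comap ev MeasurableSpace.pi]
        (fun w : C(ℝ≥0, ℝ) => w t) := by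
      intro t
      have : (fun w : C(ℝ≥0, ℝ) => w t) = (fun f : ℝ≥0 → ℝ => f t) ∘ ev := rfl
      rw [this]
      exact (measurable_pi_apply t).comp (comap_measurable ev)
    refine MeasurableSet.iUnion fun n => MeasurableSet.biInter hc fun t _ => ?_
    exact hm t (hF n).measurableSet
  · exact measurable_iff_comap_le.1 measurable_ev

lemma measurable_path {α : Type*} [MeasurableSpace α] {f : α → C(ℝ≥0, ℝ)}
    (h : ∀ t, Measurable (fun a => f a t)) : Measurable f := by
  have : Measurable (ev ∘ f) := measurable_pi_lambda _ h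
  rw [measurable_iff_comap_le, measurableSpace_eq_comap, MeasurableSpace.comap_comp]
  exact measurable_iff_comap_le.1 this

/-- `W` is the Wiener measure: under `W` the coordinate process is a Brownian motion. -/
def IsWiener (W : Measure C(ℝ≥0, ℝ)) : Prop :=
  IsBrownianReal (fun (t : ℝ≥0) (w : C(ℝ≥0, ℝ)) => w t) W

theorem map_eq_of_isPreBrownian {Ω : Type*} {mΩ : MeasurableSpace Ω} {P : Measure Ω}
    {X : Ω → C(ℝ≥0, ℝ)} (hX : Measurable X)
    (hB : IsPreBrownianReal (fun t ω => X ω t) P) {W : Measure C(ℝ≥0, ℝ)}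
    (hW : IsPreBrownianReal (fun (t : ℝ≥0) (w : C(ℝ≥0, ℝ)) => w t) W) : P.map X = W := by
  have hP : IsProbabilityMeasure P := hB.isGaussianProcess.isProbabilityMeasure
  have hWp : IsProbabilityMeasure W := hW.isGaussianProcess.isProbabilityMeasure
  have h1 : IsProjectiveLimit ((P.map X).map ev) BrownianReal.projectiveFamily := by
    intro I
    rw [Measure.map_map measurable_ev hX, Measure.map_map (by fun_prop) (measurable_ev.comp hX)]
    exact (hB.hasLaw I).map_eq
  have h2 : IsProjectiveLimit (W.map ev) BrownianReal.projectiveFamily := by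
    intro I
    rw [Measure.map_map (by fun_prop) measurable_ev]
    exact (hW.hasLaw I).map_eq
  have h3 : (P.map X).map ev = W.map ev := h1.unique h2
  ext B hB
  have hB' : MeasurableSet[MeasurableSpace.comap ev MeasurableSpace.pi] B := by
    rw [← measurableSpace_eq_comap]; exact hB
  obtain ⟨B', hB'm, rfl⟩ := hB'
  rw [← Measure.map_apply measurable_ev hB'm, ← Measure.map_apply measurable_ev hB'm, h3]

/-- shift by `s` -/
def shift (s : ℝ≥0) (w : C(ℝ≥0, ℝ)) : C(ℝ≥0, ℝ) :=
  ⟨fun t => w (s + t) - w s, by fun_prop⟩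

@[simp] lemma shift_apply (s : ℝ≥0) (w : C(ℝ≥0, ℝ)) (t : ℝ≥0) :
    shift s w t = w (s + t) - w s := rfl

lemma measurable_shift (s : ℝ≥0) : Measurable (shift s) :=
  measurable_path fun t => (measurable_eval (s + t)).sub (measurable_eval s)

lemma shift_shift (s t : ℝ≥0) (w : C(ℝ≥0, ℝ)) : shift t (shift s w) = shift (s + t) w := by
  ext r
  simp only [shift_apply]
  rw [add_assoc]
  ring

variable {W : Measure C(ℝ≥0, ℝ)}

lemma map_shift (hW : IsWiener W) (s : ℝ≥0) : W.map (shift s) = W :=
  map_eq_of_isPreBrownian (measurable_shift s) (hW.toIsPreBrownianReal.shift s)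
    hW.toIsPreBrownianReal

lemma iterate_shift (n : ℕ) (w : C(ℝ≥0, ℝ)) :
    shift n w = (fun v => shift n v) w := rfl

lemma preimage_shift {A : Set C(ℝ≥0, ℝ)} (hA : shift 1 ⁻¹' A = A) (n : ℕ) :
    shift (n + 1 : ℕ) ⁻¹' A = A := by
  induction n with
  | zero => simpa using hA
  | succ n ih =>
    have h1 : shift (n + 1 + 1 : ℕ) ⁻¹' A = shift 1 ⁻¹' (shift (n + 1 : ℕ) ⁻¹' A) := by
      ext w
      simp only [mem_preimage]
      rw [shift_shift]
      congr! 2
      push_cast
      ring
    rw [h1, ih, hA]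

/-- the restriction of a path to `[0, n]` -/
def restr (n : ℝ≥0) (w : C(ℝ≥0, ℝ)) (t : Iic n) : ℝ := w t

theorem ergodic_shift (hW : IsWiener W) : Ergodic (shift 1) W := by
  have hWp : IsProbabilityMeasure W := hW.isGaussianProcess.isProbabilityMeasure
  refine ⟨⟨measurable_shift 1, map_shift hW 1⟩, ⟨fun A hA hAinv => ?_⟩⟩
  -- A is independent of every finite window
  have hind : ∀ n : ℕ, Indep (MeasurableSpace.comap (restr (n + 1 : ℕ)) MeasurableSpace.pi)
      (MeasurableSpace.generateFrom {A}) W := by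
    intro n
    have h1 := (hW.toIsPreBrownianReal.indepFun_shift ((n + 1 : ℕ) : ℝ≥0)).symm
    rw [IndepFun_iff_Indep] at h1
    refine indep_of_indep_of_le_right h1 ?_
    apply MeasurableSpace.generateFrom_le
    rintro B hB
    rw [mem_singleton_iff] at hB
    subst hB
    have hB1 : MeasurableSet[MeasurableSpace.comap ev MeasurableSpace.pi] B := by
      rw [← measurableSpace_eq_comap]; exact hA
    obtain ⟨B', hB'm, hB'⟩ := hB1
    refine ⟨B', hB'm, ?_⟩
    rw [← preimage_shift hAinv n, ← hB']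
    rfl
  have hmono : Monotone (fun n : ℕ =>
      MeasurableSpace.comap (restr (n + 1 : ℕ)) MeasurableSpace.pi) := by
    intro a b hab
    have hab' : ((a + 1 : ℕ) : ℝ≥0) ≤ ((b + 1 : ℕ) : ℝ≥0) := by exact_mod_cast Nat.succ_le_succ hab
    have : restr (a + 1 : ℕ) = (fun (f : Iic ((b + 1 : ℕ) : ℝ≥0) → ℝ)
        (t : Iic ((a + 1 : ℕ) : ℝ≥0)) => f ⟨t.1, t.2.trans hab'⟩) ∘ restr (b + 1 : ℕ) := rfl
    simp only
    rw [this, ← MeasurableSpace.comap_comp]
    apply MeasurableSpace.comap_mono
    apply measurable_iff_comap_le.1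
    exact measurable_pi_lambda _ fun t => measurable_pi_apply _
  have hle : ∀ n : ℕ, MeasurableSpace.comap (restr (n + 1 : ℕ)) MeasurableSpace.pi ≤
      pathMeasurableSpace := by
    intro n
    apply measurable_iff_comap_le.1
    exact measurable_pi_lambda _ fun t => measurable_eval _
  have hgle : MeasurableSpace.generateFrom {A} ≤ pathMeasurableSpace := by
    apply MeasurableSpace.generateFrom_le
    rintro B hB
    rw [mem_singleton_iff] at hB
    subst hB
    exact hA
  have hsup := indep_iSup_of_monotone hind hle hgle hmono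
  have hfull : pathMeasurableSpace ≤
      ⨆ n : ℕ, MeasurableSpace.comap (restr (n + 1 : ℕ)) MeasurableSpace.pi := by
    rw [measurableSpace_eq_comap]
    apply measurable_iff_comap_le.1
    refine @measurable_pi_lambda _ _ _ (_) _ _ fun t => ?_
    obtain ⟨n, hn⟩ := exists_nat_ge t
    have hn' : t ≤ ((n + 1 : ℕ) : ℝ≥0) := hn.trans (by exact_mod_cast Nat.le_succ n)
    have h1 : Measurable[MeasurableSpace.comap (restr (n + 1 : ℕ)) MeasurableSpace.pi]
        (fun w : C(ℝ≥0, ℝ) => w t) := by
      have : (fun w : C(ℝ≥0, ℝ) => w t) =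
          (fun f : Iic ((n + 1 : ℕ) : ℝ≥0) → ℝ => f ⟨t, hn'⟩) ∘ restr (n + 1 : ℕ) := rfl
      rw [this]
      exact (measurable_pi_apply _).comp (comap_measurable _)
    exact h1.mono (le_iSup (fun n : ℕ =>
      MeasurableSpace.comap (restr (n + 1 : ℕ)) MeasurableSpace.pi) n) le_rfl
  have hself : IndepSet A A W := by
    refine indep_of_indep_of_le_left hsup ?_
    exact hgle.trans hfull
  have h01 := measure_eq_zero_or_one_of_indepSet_self hself
  rw [eventuallyConst_set']
  rcases h01 with h | h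
  · left
    exact ae_eq_empty.2 h
  · right
    rw [ae_eq_univ]
    exact (prob_compl_eq_zero_iff hA).2 h

end Pool.Agent.R967.FB
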