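import Pool.Agent.R967.FB.Wiener

/-! Putting a reversed Brownian piece in front of a path. -/

namespace Pool.Agent.R967.FB

open MeasureTheory ProbabilityTheory Filter Topology Set
open scoped ENNReal NNReal

/-- The path `x` with the time reversal of the path `l` on `[0, s]` put in front of it. -/
def prep (s : ℝ≥0) (p : C(ℝ≥0, ℝ) × C(ℝ≥0, ℝ)) : C(ℝ≥0, ℝ) :=
  ⟨fun t => (p.2 (s - t) - p.2 s) + (p.1 (t - s) - p.1 0), by
    have h1 : Continuous fun t : ℝ≥0 => s - t := continuous_const.sub continuous_id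
    have h2 : Continuous fun t : ℝ≥0 => t - s := continuous_id.sub continuous_const
    exact ((p.2.continuous.comp h1).sub continuous_const).add
      ((p.1.continuous.comp h2).sub continuous_const)⟩

lemma prep_apply (s : ℝ≥0) (p : C(ℝ≥0, ℝ) × C(ℝ≥0, ℝ)) (t : ℝ≥0) :
    prep s p t = (p.2 (s - t) - p.2 s) + (p.1 (t - s) - p.1 0) := rfl

lemma measurable_prep (s : ℝ≥0) : Measurable (prep s) := by
  apply measurable_path
  intro t
  simp only [prep_apply]
  have h1 : ∀ r, Measurable fun p : C(ℝ≥0, ℝ) × C(ℝ≥0, ℝ) => p.1 r :=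
    fun r => (measurable_eval r).comp measurable_fst
  have h2 : ∀ r, Measurable fun p : C(ℝ≥0, ℝ) × C(ℝ≥0, ℝ) => p.2 r :=
    fun r => (measurable_eval r).comp measurable_snd
  exact ((h2 _).sub (h2 _)).add ((h1 _).sub (h1 _))

lemma shift_prep (s : ℝ≥0) (p : C(ℝ≥0, ℝ) × C(ℝ≥0, ℝ)) :
    shift 1 (prep (s + 1) p) = prep s p := by
  ext t
  simp only [shift_apply, prep_apply]
  have e1 : s + 1 - (1 + t) = s - t := by
    rw [add_comm s 1, add_tsub_add_eq_tsub_left]
  have e2 : 1 + t - (s + 1) = t - s := by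
    rw [add_comm s 1, add_tsub_add_eq_tsub_left]
  have e3 : s + 1 - 1 = s := by simp
  have e4 : (1 : ℝ≥0) - (s + 1) = 0 := tsub_eq_zero_of_le le_add_self
  rw [e1, e2, e3, e4]
  ring

variable {W : Measure C(ℝ≥0, ℝ)}

lemma preB_fst (hW : IsWiener W) :
    IsPreBrownianReal (fun (t : ℝ≥0) (p : C(ℝ≥0, ℝ) × C(ℝ≥0, ℝ)) => p.1 t) (W.prod W) := by
  have hWp : IsProbabilityMeasure W := hW.isGaussianProcess.isProbabilityMeasure
  refine ⟨fun I => ?_⟩
  exact (hW.hasLaw I).comp (measurePreserving_fst (μ := W) (ν := W)).hasLaw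

lemma preB_snd (hW : IsWiener W) :
    IsPreBrownianReal (fun (t : ℝ≥0) (p : C(ℝ≥0, ℝ) × C(ℝ≥0, ℝ)) => p.2 t) (W.prod W) := by
  have hWp : IsProbabilityMeasure W := hW.isGaussianProcess.isProbabilityMeasure
  refine ⟨fun I => ?_⟩
  exact (hW.hasLaw I).comp (measurePreserving_snd (μ := W) (ν := W)).hasLaw

/-- the joint process -/
def joint (r : ℝ≥0 ⊕ ℝ≥0) (p : C(ℝ≥0, ℝ) × C(ℝ≥0, ℝ)) : ℝ :=
  Sum.elim (fun t => p.1 t) (fun t => p.2 t) r

lemma joint_gaussian (hW : IsWiener W) : IsGaussianProcess joint (W.prod W) := by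
  have hWp : IsProbabilityMeasure W := hW.isGaussianProcess.isProbabilityMeasure
  refine ⟨fun I => ?_⟩
  have h1 := (preB_fst hW).isGaussianProcess.hasGaussianLaw I.toLeft
  have h2 := (preB_snd hW).isGaussianProcess.hasGaussianLaw I.toRight
  have hm : ∀ J : Finset ℝ≥0, Measurable (fun w : C(ℝ≥0, ℝ) => J.restrict (fun t => w t)) :=
    fun J => measurable_pi_lambda _ fun t => measurable_eval _
  have h3 := IndepFun.hasGaussianLaw h1 h2
    (indepFun_prod (μ := W) (ν := W) (hm I.toLeft) (hm I.toRight))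
  let L : ((I.toLeft → ℝ) × (I.toRight → ℝ)) →L[ℝ] (I → ℝ) :=
    { toFun := fun x i => match i with
        | ⟨Sum.inl a, ha⟩ => x.1 ⟨a, Finset.mem_toLeft.2 ha⟩
        | ⟨Sum.inr b, hb⟩ => x.2 ⟨b, Finset.mem_toRight.2 hb⟩
      map_add' := by
        intro x y
        ext ⟨i, hi⟩
        rcases i with a | b <;> rfl
      map_smul' := by
        intro c x
        ext ⟨i, hi⟩
        rcases i with a | b <;> rfl
      cont := by
        apply continuous_pi
        rintro ⟨i, hi⟩
        rcases i with a | b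
        · exact (continuous_apply _).comp continuous_fst
        · exact (continuous_apply _).comp continuous_snd }
  have h4 := h3.map L
  convert! h4 using 1
  ext p ⟨i, hi⟩
  rcases i with a | b <;> rfl

theorem prep_preBrownian (hW : IsWiener W) (s : ℝ≥0) :
    IsPreBrownianReal (fun t p => prep s p t) (W.prod W) := by
  have hWp : IsProbabilityMeasure W := hW.isGaussianProcess.isProbabilityMeasure
  have hx := preB_fst hW
  have hl := preB_snd hW
  have hxl : ∀ r, MemLp (fun p : C(ℝ≥0, ℝ) × C(ℝ≥0, ℝ) => p.1 r) 2 (W.prod W) := fun r =>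
    (hx.isGaussianProcess.hasGaussianLaw_eval r).memLp_two
  have hll : ∀ r, MemLp (fun p : C(ℝ≥0, ℝ) × C(ℝ≥0, ℝ) => p.2 r) 2 (W.prod W) := fun r =>
    (hl.isGaussianProcess.hasGaussianLaw_eval r).memLp_two
  refine IsGaussianProcess.isPreBrownianReal_of_covariance ?_ (fun t => ?_) (fun t u htu => ?_)
  · refine (joint_gaussian hW).of_isGaussianProcess fun t => ?_
    refine ⟨{Sum.inr (s - t), Sum.inr s, Sum.inl (t - s), Sum.inl 0},
      { toFun := fun x => (x ⟨Sum.inr (s - t), by simp⟩ - x ⟨Sum.inr s, by simp⟩) +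
          (x ⟨Sum.inl (t - s), by simp⟩ - x ⟨Sum.inl 0, by simp⟩)
        map_add' := by intro x y; simp; ring
        map_smul' := by intro c x; simp; ring }, fun p => ?_⟩
    rfl
  · simp only [prep_apply]
    rw [integral_add, integral_sub, integral_sub, hx.integral_eval, hx.integral_eval,
      hl.integral_eval, hl.integral_eval]
    · simp
    · exact hx.integrable_eval _
    · exact hx.integrable_eval _
    · exact hl.integrable_eval _
    · exact hl.integrable_eval _
    · exact (hl.integrable_eval _).sub (hl.integrable_eval _)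
    · exact (hx.integrable_eval _).sub (hx.integrable_eval _)
  · -- covariance
    have hA : ∀ t, MemLp (fun p : C(ℝ≥0, ℝ) × C(ℝ≥0, ℝ) => p.2 (s - t) - p.2 s) 2 (W.prod W) :=
      fun t => (hll _).sub (hll _)
    have hB : ∀ t, MemLp (fun p : C(ℝ≥0, ℝ) × C(ℝ≥0, ℝ) => p.1 (t - s) - p.1 0) 2 (W.prod W) :=
      fun t => (hxl _).sub (hxl _)
    have hmA : ∀ t, Measurable (fun l : C(ℝ≥0, ℝ) => l (s - t) - l s) := fun t =>
      (measurable_eval _).sub (measurable_eval _)
    have hmB : ∀ t, Measurable (fun l : C(ℝ≥0, ℝ) => l (t - s) - l 0) := fun t =>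
      (measurable_eval _).sub (measurable_eval _)
    have hcross : ∀ t u, cov[fun p : C(ℝ≥0, ℝ) × C(ℝ≥0, ℝ) => p.1 (t - s) - p.1 0,
        fun p : C(ℝ≥0, ℝ) × C(ℝ≥0, ℝ) => p.2 (s - u) - p.2 s; W.prod W] = 0 := by
      intro t u
      exact (indepFun_prod (μ := W) (ν := W) (hmB t) (hmA u)).covariance_eq_zero (hB t) (hA u)
    have e : ∀ t, (fun p : C(ℝ≥0, ℝ) × C(ℝ≥0, ℝ) => prep s p t) =
        (fun p => p.2 (s - t) - p.2 s) + (fun p => p.1 (t - s) - p.1 0) := fun t => rfl
    rw [e t, e u, covariance_add_left (hA t) (hB t) ((hA u).add (hB u)),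
      covariance_add_right (hA t) (hA u) (hB u), covariance_add_right (hB t) (hA u) (hB u),
      hcross t u, covariance_comm (X := fun p : C(ℝ≥0, ℝ) × C(ℝ≥0, ℝ) => p.2 (s - t) - p.2 s)
        (Y := fun p => p.1 (u - s) - p.1 0), hcross u t]
    rw [covariance_fun_sub_fun_sub (hll _) (hll _) (hll _) (hll _),
      covariance_fun_sub_fun_sub (hxl _) (hxl _) (hxl _) (hxl _)]
    rw [hl.covariance_fun_eval, hl.covariance_fun_eval, hl.covariance_fun_eval,
      hl.covariance_fun_eval, hx.covariance_fun_eval, hx.covariance_fun_eval,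
      hx.covariance_fun_eval, hx.covariance_fun_eval]
    rcases le_total u s with h | h
    · have h' : t ≤ s := htu.trans h
      rw [tsub_eq_zero_of_le h, tsub_eq_zero_of_le h']
      have e1 : min (s - t) (s - u) = s - u := min_eq_right (tsub_le_tsub_left htu s)
      have e2 : min (s - t) s = s - t := min_eq_left tsub_le_self
      have e3 : min s (s - u) = s - u := min_eq_right tsub_le_self
      simp only [NNReal.coe_min, NNReal.coe_sub h, NNReal.coe_sub h', NNReal.coe_zero]
      have g1 : (t:ℝ) ≤ u := htu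
      have g2 : (u:ℝ) ≤ s := h
      have g3 : (0:ℝ) ≤ t := t.2
      have g4 : (0:ℝ) ≤ u := u.2
      rw [min_eq_right (by linarith), min_eq_left (by linarith), min_eq_right (by linarith)]
      simp
    · rcases le_total t s with h' | h'
      · rw [tsub_eq_zero_of_le h, tsub_eq_zero_of_le h']
        simp only [NNReal.coe_min, NNReal.coe_sub h, NNReal.coe_sub h', NNReal.coe_zero]
        have g1 : (t:ℝ) ≤ u := htu
        have g2 : (s:ℝ) ≤ u := h
        have g3 : (0:ℝ) ≤ t := t.2
        have g4 : (t:ℝ) ≤ s := h'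
        rw [min_eq_right (by linarith), min_eq_left (by linarith), min_eq_right (by linarith),
          min_eq_left (by linarith), min_eq_left le_rfl]
        simp
      · rw [tsub_eq_zero_of_le h, tsub_eq_zero_of_le h']
        simp only [NNReal.coe_min, NNReal.coe_sub h, NNReal.coe_sub h', NNReal.coe_zero]
        have g1 : (t:ℝ) ≤ u := htu
        have g2 : (s:ℝ) ≤ u := h
        have g3 : (0:ℝ) ≤ s := s.2
        have g4 : (s:ℝ) ≤ t := h'
        simp only [min_def]
        split_ifs <;> linarith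

theorem map_prep (hW : IsWiener W) (s : ℝ≥0) : (W.prod W).map (prep s) = W :=
  map_eq_of_isPreBrownian (measurable_prep s) (prep_preBrownian hW s) hW.toIsPreBrownianReal

end Pool.Agent.R967.FB
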