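import Pool.Agent.R967.FB.Fill
import Pool.Agent.R967.FB.Prep

/-! The enlargement and the random piece. -/

namespace Pool.Agent.R967.FB

open MeasureTheory ProbabilityTheory Filter Topology Set
open scoped ENNReal NNReal

variable {W : Measure C(ℝ≥0, ℝ)} {D : C(ℝ≥0, ℝ) → ℝ≥0∞}

lemma prep_zero (p : C(ℝ≥0, ℝ) × C(ℝ≥0, ℝ)) (h : p.1 0 = 0) : prep 0 p = p.1 := by
  ext t
  rw [prep_apply, h]
  simp

lemma sum_rr_prep (p : C(ℝ≥0, ℝ) × C(ℝ≥0, ℝ)) (n : ℕ) :
    ∑ i ∈ Finset.range n, rr (shift 1) D i (prep i p) + mm (shift 1) D n (prep n p) =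
      D (prep 0 p) := by
  induction n with
  | zero => simp [mm_zero]
  | succ n ih =>
    have h1 : prep (n + 1 : ℕ) p = prep ((n : ℝ≥0) + 1) p := by push_cast; rfl
    rw [Finset.sum_range_succ, h1, mm_succ, shift_prep, add_assoc,
      add_tsub_cancel_of_le (show rr (shift 1) D n (prep n p) ≤ mm (shift 1) D n (prep n p) from
        min_le_left _ _), ih]

lemma sum_rr_prep_le (p : C(ℝ≥0, ℝ) × C(ℝ≥0, ℝ)) (n : ℕ) :
    ∑ i ∈ Finset.range n, rr (shift 1) D i (prep i p) ≤ D (prep 0 p) := by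
  rw [← sum_rr_prep (D := D) p n]
  exact le_self_add

lemma ae_zero (hW : IsWiener W) : ∀ᵐ w ∂W, w 0 = 0 :=
  hW.toIsPreBrownianReal.eval_zero_ae_eq_zero

universe u

variable {Ω : Type u} [MeasurableSpace Ω] {P : Measure Ω} [IsProbabilityMeasure P]
  {X : Ω → C(ℝ≥0, ℝ)}

/-- conditional probability of stopping at `s` -/
noncomputable def qq (D : C(ℝ≥0, ℝ) → ℝ≥0∞) (X : Ω → C(ℝ≥0, ℝ)) (s : ℕ)
    (p : Ω × C(ℝ≥0, ℝ)) : ℝ≥0∞ :=
  rr (shift 1) D s (prep s (X p.1, p.2)) / D (X p.1)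

lemma measurable_prepX (hX : Measurable X) (s : ℕ) :
    Measurable fun p : Ω × C(ℝ≥0, ℝ) => prep s (X p.1, p.2) :=
  (measurable_prep s).comp ((hX.comp measurable_fst).prodMk measurable_snd)

lemma measurable_qq (hD : Measurable D) (hX : Measurable X) (s : ℕ) : Measurable (qq D X s) :=
  ((rr_measurable (measurable_shift 1) hD s).comp (measurable_prepX hX s)).div
    ((hD.comp hX).comp measurable_fst)

lemma lintegral_X (hW : IsWiener W) (hX : Measurable X) (hD : Measurable D)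
    (hPX : P.map X = W.withDensity D) {g : C(ℝ≥0, ℝ) × C(ℝ≥0, ℝ) → ℝ≥0∞} (hg : Measurable g) :
    ∫⁻ p, g (X p.1, p.2) ∂(P.prod W) = ∫⁻ p, D p.1 * g p ∂(W.prod W) := by
  have hWp : IsProbabilityMeasure W := hW.isGaussianProcess.isProbabilityMeasure
  have hPXp : IsProbabilityMeasure (P.map X) := Measure.isProbabilityMeasure_map hX.aemeasurable
  have h1 : (P.prod W).map (Prod.map X id) = (P.map X).prod W := by
    rw [← Measure.map_prod_map _ _ hX measurable_id, Measure.map_id]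
  have h2 : ∫⁻ p, g (X p.1, p.2) ∂(P.prod W) = ∫⁻ p, g p ∂((P.map X).prod W) := by
    rw [← h1, lintegral_map hg (hX.prodMap measurable_id)]
    rfl
  rw [h2, hPX]
  have hsf : SFinite (W.withDensity D) := by rw [← hPX]; infer_instance
  rw [prod_withDensity_left hD]
  rw [lintegral_withDensity_eq_lintegral_mul _
    (show Measurable (fun z : C(ℝ≥0, ℝ) × C(ℝ≥0, ℝ) => D z.1) from hD.comp measurable_fst) hg]
  rfl

lemma lintegral_qq (hW : IsWiener W) (hX : Measurable X) (hD : Measurable D)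
    (hPX : P.map X = W.withDensity D) (hfin : ∀ᵐ w ∂W, D w < ∞) (s : ℕ)
    {B : Set C(ℝ≥0, ℝ)} (hB : MeasurableSet B) :
    ∫⁻ p, B.indicator 1 (prep s (X p.1, p.2)) * qq D X s p ∂(P.prod W) =
      ∫⁻ z in B, rr (shift 1) D s z ∂W := by
  have hWp : IsProbabilityMeasure W := hW.isGaussianProcess.isProbabilityMeasure
  have hr := rr_measurable (measurable_shift 1) hD s
  have hind : Measurable (B.indicator (1 : C(ℝ≥0, ℝ) → ℝ≥0∞)) := measurable_one.indicator hB
  have h1 := lintegral_X (g := fun p => B.indicator 1 (prep s p) *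
    (rr (shift 1) D s (prep s p) / D p.1)) hW hX hD hPX
    ((hind.comp (measurable_prep s)).mul ((hr.comp (measurable_prep s)).div
      (hD.comp measurable_fst)))
  have h2 : ∫⁻ p, B.indicator 1 (prep s (X p.1, p.2)) * qq D X s p ∂(P.prod W) =
      ∫⁻ p, D p.1 * (B.indicator 1 (prep s p) *
    (rr (shift 1) D s (prep s p) / D p.1)) ∂(W.prod W) := h1
  rw [h2]
  have h3 : ∀ᵐ p ∂(W.prod W), D p.1 * (B.indicator 1 (prep s p) *
      (rr (shift 1) D s (prep s p) / D p.1)) =
      B.indicator (rr (shift 1) D s) (prep s p) := by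
    have ha : ∀ᵐ p ∂(W.prod W), p.1 0 = 0 :=
      (Measure.quasiMeasurePreserving_fst (μ := W) (ν := W)).ae (ae_zero hW)
    have hb : ∀ᵐ p ∂(W.prod W), D p.1 < ∞ :=
      (Measure.quasiMeasurePreserving_fst (μ := W) (ν := W)).ae hfin
    filter_upwards [ha, hb] with p hp hq
    have hle : rr (shift 1) D s (prep s p) ≤ D p.1 := by
      have := sum_rr_prep_le (D := D) p (s + 1)
      rw [Finset.sum_range_succ, prep_zero p hp] at this
      exact le_add_self.trans this
    by_cases hm : prep s p ∈ B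
    · rw [indicator_of_mem hm, indicator_of_mem hm, Pi.one_apply, one_mul]
      by_cases h0 : D p.1 = 0
      · rw [h0] at hle ⊢
        rw [le_antisymm hle zero_le]
        simp
      · exact ENNReal.mul_div_cancel h0 hq.ne
    · rw [indicator_of_notMem hm, indicator_of_notMem hm]
      simp
  rw [lintegral_congr_ae h3, ← lintegral_indicator hB]
  conv_rhs => rw [← map_prep hW (s : ℝ≥0)]
  rw [lintegral_map (hr.indicator hB) (measurable_prep s)]

lemma lintegral_D (hX : Measurable X) (hPX : P.map X = W.withDensity D) :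
    ∫⁻ w, D w ∂W = 1 := by
  have hPXp : IsProbabilityMeasure (P.map X) := Measure.isProbabilityMeasure_map hX.aemeasurable
  have : (P.map X) univ = 1 := measure_univ
  rw [hPX, withDensity_apply _ MeasurableSet.univ, Measure.restrict_univ] at this
  exact this

lemma tsum_qq (hW : IsWiener W) (hX : Measurable X) (hD : Measurable D)
    (hPX : P.map X = W.withDensity D) (hfin : ∀ᵐ w ∂W, D w < ∞) :
    ∀ᵐ p ∂(P.prod W), ∑' s, qq D X s p = 1 := by
  have hWp : IsProbabilityMeasure W := hW.isGaussianProcess.isProbabilityMeasure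
  have hX0 : ∀ᵐ ω ∂P, X ω 0 = 0 := by
    have h1 : ∀ᵐ w ∂(P.map X), w 0 = 0 := by
      rw [hPX]
      exact (withDensity_absolutelyContinuous W D).ae_le (ae_zero hW)
    exact ae_of_ae_map hX.aemeasurable h1
  have hle : ∀ᵐ p ∂(P.prod W), ∑' s, qq D X s p ≤ 1 := by
    have ha : ∀ᵐ p ∂(P.prod W), X p.1 0 = 0 :=
      (Measure.quasiMeasurePreserving_fst (μ := P) (ν := W)).ae hX0
    filter_upwards [ha] with p hp
    rw [ENNReal.tsum_eq_iSup_nat]
    refine iSup_le fun n => ?_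
    have h1 : ∑ s ∈ Finset.range n, qq D X s p =
        (∑ s ∈ Finset.range n, rr (shift 1) D s (prep s (X p.1, p.2))) / D (X p.1) := by
      simp only [qq, ENNReal.div_eq_inv_mul, Finset.mul_sum]
    rw [h1]
    have h2 := sum_rr_prep_le (D := D) (X p.1, p.2) n
    rw [prep_zero (X p.1, p.2) hp] at h2
    exact (ENNReal.div_le_div_right h2 _).trans ENNReal.div_self_le_one
  have htot : ∫⁻ p, ∑' s, qq D X s p ∂(P.prod W) = 1 := by
    rw [lintegral_tsum fun s => (measurable_qq hD hX s).aemeasurable]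
    have h1 : ∀ s, ∫⁻ p, qq D X s p ∂(P.prod W) = ∫⁻ z, rr (shift 1) D s z ∂W := by
      intro s
      have := lintegral_qq hW hX hD hPX hfin s MeasurableSet.univ
      simpa using this
    simp only [h1]
    rw [← lintegral_tsum fun s => (rr_measurable (measurable_shift 1) hD s).aemeasurable]
    have h2 := tsum_rr_eq_one (ergodic_shift hW) hD (lintegral_D hX hPX)
    rw [lintegral_congr_ae h2]
    simp
  have hmeas : Measurable fun p => ∑' s, qq D X s p := Measurable.tsum fun s =>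
    measurable_qq hD hX s
  have hsub : ∫⁻ p, (1 - ∑' s, qq D X s p) ∂(P.prod W) = 0 := by
    rw [lintegral_sub hmeas (by rw [htot]; simp) hle, htot]
    simp
  rw [lintegral_eq_zero_iff (show Measurable (fun p => 1 - ∑' s, qq D X s p) from
    measurable_const.sub hmeas)] at hsub
  filter_upwards [hsub, hle] with p hp h2
  exact le_antisymm h2 (tsub_eq_zero_iff_le.1 hp)

/-- the measure on the enlargement -/
noncomputable def newP (P : Measure Ω) (W : Measure C(ℝ≥0, ℝ)) (D : C(ℝ≥0, ℝ) → ℝ≥0∞)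
    (X : Ω → C(ℝ≥0, ℝ)) : Measure ((Ω × C(ℝ≥0, ℝ)) × ℕ) :=
  Measure.sum fun s : ℕ => ((P.prod W).withDensity (qq D X s)).map fun p => (p, s)

omit [IsProbabilityMeasure P] in
lemma newP_apply {A : Set ((Ω × C(ℝ≥0, ℝ)) × ℕ)}
    (hA : MeasurableSet A) :
    newP P W D X A =
      ∑' s : ℕ, ∫⁻ p, A.indicator 1 (p, s) * qq D X s p ∂(P.prod W) := by
  rw [newP, Measure.sum_apply _ hA]
  refine tsum_congr fun s => ?_
  have hm : Measurable fun p : Ω × C(ℝ≥0, ℝ) => (p, s) := measurable_id.prodMk measurable_const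
  rw [Measure.map_apply hm hA, withDensity_apply _ (hm hA), ← lintegral_indicator (hm hA)]
  congr 1
  ext p
  by_cases h : (p, s) ∈ A
  · rw [indicator_of_mem (show p ∈ (fun p : Ω × C(ℝ≥0, ℝ) => (p, s)) ⁻¹' A from h),
      indicator_of_mem h]
    simp
  · rw [indicator_of_notMem (show p ∉ (fun p : Ω × C(ℝ≥0, ℝ) => (p, s)) ⁻¹' A from h),
      indicator_of_notMem h]
    simp

lemma newP_proj (hW : IsWiener W) (hX : Measurable X) (hD : Measurable D)
    (hPX : P.map X = W.withDensity D) (hfin : ∀ᵐ w ∂W, D w < ∞) :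
    MeasurePreserving (fun q : (Ω × C(ℝ≥0, ℝ)) × ℕ => q.1.1) (newP P W D X) P := by
  have hWp : IsProbabilityMeasure W := hW.isGaussianProcess.isProbabilityMeasure
  have hm : Measurable (fun q : (Ω × C(ℝ≥0, ℝ)) × ℕ => q.1.1) := measurable_fst.comp measurable_fst
  refine ⟨hm, ?_⟩
  ext A hA
  rw [Measure.map_apply hm hA, newP_apply (hm hA)]
  have h1 : ∀ s : ℕ, ∀ p : Ω × C(ℝ≥0, ℝ),
      ((fun q : (Ω × C(ℝ≥0, ℝ)) × ℕ => q.1.1) ⁻¹' A).indicator
        (1 : (Ω × C(ℝ≥0, ℝ)) × ℕ → ℝ≥0∞) (p, s) =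
        A.indicator 1 p.1 := fun s p => rfl
  simp only [h1]
  have hmi : Measurable fun p : Ω × C(ℝ≥0, ℝ) => A.indicator (1 : Ω → ℝ≥0∞) p.1 :=
    (measurable_one.indicator hA).comp measurable_fst
  rw [← lintegral_tsum fun s => (show Measurable (fun p : Ω × C(ℝ≥0, ℝ) =>
    A.indicator (1 : Ω → ℝ≥0∞) p.1 * qq D X s p) from
      hmi.mul (measurable_qq hD hX s)).aemeasurable]
  simp only [ENNReal.tsum_mul_left]
  have h2 : ∀ᵐ p ∂(P.prod W), A.indicator (1 : Ω → ℝ≥0∞) p.1 * ∑' s, qq D X s p =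
      A.indicator 1 p.1 := by
    filter_upwards [tsum_qq hW hX hD hPX hfin] with p hp
    rw [hp, mul_one]
  rw [lintegral_congr_ae h2]
  have h3 := (measurePreserving_fst (μ := P) (ν := W)).lintegral_comp
    (f := A.indicator (1 : Ω → ℝ≥0∞)) (measurable_one.indicator hA)
  rw [h3, lintegral_indicator_one hA]

/-- the new path -/
noncomputable def newZ (X : Ω → C(ℝ≥0, ℝ)) (q : (Ω × C(ℝ≥0, ℝ)) × ℕ) : C(ℝ≥0, ℝ) :=
  prep (q.2 : ℝ≥0) (X q.1.1, q.1.2)

lemma measurable_newZ (hX : Measurable X) : Measurable (newZ X) :=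
  measurable_from_prod_countable_left fun s => measurable_prepX hX s

lemma newP_map_newZ (hW : IsWiener W) (hX : Measurable X) (hD : Measurable D)
    (hPX : P.map X = W.withDensity D) (hfin : ∀ᵐ w ∂W, D w < ∞) :
    (newP P W D X).map (newZ X) = W := by
  have hWp : IsProbabilityMeasure W := hW.isGaussianProcess.isProbabilityMeasure
  ext B hB
  rw [Measure.map_apply (measurable_newZ hX) hB, newP_apply (measurable_newZ hX hB)]
  have h1 : ∀ s : ℕ, ∀ p : Ω × C(ℝ≥0, ℝ),
      (newZ X ⁻¹' B).indicator (1 : (Ω × C(ℝ≥0, ℝ)) × ℕ → ℝ≥0∞) (p, s) =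
        B.indicator 1 (prep s (X p.1, p.2)) := fun s p => rfl
  simp only [h1, lintegral_qq hW hX hD hPX hfin _ hB]
  rw [← lintegral_tsum fun s => (rr_measurable (measurable_shift 1) hD s).aemeasurable]
  have h2 := tsum_rr_eq_one (ergodic_shift hW) hD (lintegral_D hX hPX)
  rw [lintegral_congr_ae (ae_restrict_of_ae h2)]
  simp

end Pool.Agent.R967.FB
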